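import Pool.Graph.R_pool_sql_team_79ade240.H21.PrefMain

set_option autoImplicit false

namespace Pool.Agent.KS6_79.AU

open Pool.Agent.H21.Reg Pool.Agent.H21.Tree

variable {A : Type} {G : Type*} [Group G]

/-- images of relations under a map of alphabets -/
theorem ext_map {B D : Type} (j : B → D) {R : List B → List B → Prop} (hR : (Ext R).IsRegular) :
    (Ext (fun u v : List D => ∃ u' v', u = u'.map j ∧ v = v'.map j ∧ R u' v')).IsRegular := by
  refine isReg_congr (image hR (fun t : Option B × Option B => (t.1.map j, t.2.map j)))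
    fun p => ?_
  constructor
  · rintro ⟨u, v, ⟨u', v', rfl, rfl, h⟩, hu, hv, hp⟩
    rw [List.length_map] at hu hv
    refine ⟨cv p.length u' v', ⟨u', v', h, by simpa using hu, by simpa using hv, by simp⟩, ?_⟩
    conv_rhs => rw [hp]
    simp [cv, Function.comp_def]
  · rintro ⟨q, ⟨u', v', h, hu, hv, hq⟩, rfl⟩
    refine ⟨u'.map j, v'.map j, ⟨u', v', rfl, rfl, h⟩, by simpa using hu, by simpa using hv, ?_⟩
    conv_lhs => rw [hq]
    simp [cv, Function.comp_def]

/-- left multiplication by any element is regular if left multiplication by the letters is -/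
theorem mulRegL {f : A → G} {L : Language A} (h : IsAut f L)
    (hl : ∀ a : A, (Ext (fun u v => u ∈ L ∧ v ∈ L ∧ f a * ev f u = ev f v)).IsRegular) (g : G) :
    (Ext (fun u v => u ∈ L ∧ v ∈ L ∧ g * ev f u = ev f v)).IsRegular := by
  obtain ⟨h1, h2, h3, h4⟩ := h
  obtain ⟨w, -, rfl⟩ := h2 g
  induction w with
  | nil =>
    simpa [ev] using h3
  | cons a w ih =>
    refine isReg_congr (comp ih (hl a)) (fun p => ?_)
    have : (fun u v => u ∈ L ∧ v ∈ L ∧ ev f (a :: w) * ev f u = ev f v) =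
        (fun u x => ∃ v, (u ∈ L ∧ v ∈ L ∧ ev f w * ev f u = ev f v) ∧
          (v ∈ L ∧ x ∈ L ∧ f a * ev f v = ev f x)) := by
      funext u x
      apply propext
      have e : ev f (a :: w) = f a * ev f w := by simp [ev]
      constructor
      · rintro ⟨hu, hx, he⟩
        obtain ⟨v, hv, hv2⟩ := h2 (ev f w * ev f u)
        refine ⟨v, ⟨hu, hv, hv2.symm⟩, hv, hx, ?_⟩
        rw [hv2, ← he, e, mul_assoc]
      · rintro ⟨v, ⟨hu, hv, e1⟩, -, hx, e2⟩
        refine ⟨hu, hx, ?_⟩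
        rw [← e2, ← e1, e, mul_assoc]
    rw [this]

/-- the block structure preserves all regular relations -/
theorem main₀ [Finite A] (f : A → G) (L : Language A) (h : IsAut f L) :
    ∃ (B : Type) (_ : Finite B) (g : B → G) (L' : Language B), L'.IsRegular ∧
      (∀ x : G, ∃ w ∈ L', ev g w = x) ∧
      (∀ R : G → G → Prop,
        (Ext (fun u v => u ∈ L ∧ v ∈ L ∧ R (ev f u) (ev f v))).IsRegular →
        (Ext (fun u v => u ∈ L' ∧ v ∈ L' ∧ R (ev g u) (ev g v))).IsRegular) ∧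
      (∀ u v : List B, u ++ v ∈ L' → u ∈ L') ∧
      (∀ u ∈ L', ∀ v ∈ L', ev g u = ev g v → u = v) := by
  classical
  obtain ⟨L₁, hL₁, hsub, hsurj, huniq⟩ := exists_unique_reps (ev f) h.1 h.2.1 h.2.2.1
  obtain ⟨σ, hσ, M, rfl⟩ := hL₁
  obtain ⟨z₀, hz₀, hz₀1⟩ := hsurj 1
  have hch : ∀ q : σ, ∃ w : List A, (∀ w', M.evalFrom q w' ∈ M.accept → M.evalFrom q w ∈ M.accept) ∧
      (q = M.start → w = z₀) := by
    intro q
    by_cases hq : q = M.start
    · subst hq
      exact ⟨z₀, fun _ _ => hz₀, fun _ => rfl⟩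
    · by_cases hw : ∃ w, M.evalFrom q w ∈ M.accept
      · obtain ⟨w, hw⟩ := hw
        exact ⟨w, fun _ _ => hw, fun h => absurd h hq⟩
      · exact ⟨[], fun w' h => absurd ⟨w', h⟩ hw, fun h => absurd h hq⟩
  choose t ht ht₀ using hch
  have ht₀' : t M.start = z₀ := ht₀ _ rfl
  obtain ⟨N, hN⟩ : ∃ N : ℕ, ∀ q, (t q).length < N := by
    refine ⟨(∑ q, (t q).length) + 1, fun q => ?_⟩
    have := Finset.single_le_sum (f := fun q => (t q).length) (fun _ _ => Nat.zero_le _)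
      (Finset.mem_univ q)
    omega
  have hfin : Finite {c : List A // c.length < 2 * N} :=
    (List.finite_length_lt A (2 * N)).to_subtype
  have hac : ∀ u, u ∈ (T M t N).accepts ↔ acc M t N true M.start u := fun u => Iff.rfl
  have hval : ∀ u ∈ (T M t N).accepts, ev (fB f t N) u = ev f (dec N z₀ u) := by
    intro u hu
    have := value (f := f) ((hac u).1 hu)
    rw [ht₀', hz₀1, inv_one, one_mul] at this
    exact this
  have hmem : ∀ u ∈ (T M t N).accepts, dec N z₀ u ∈ M.accepts := by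
    intro u hu
    by_cases hu0 : u = []
    · subst hu0; exact hz₀
    · exact dec_mem ((hac u).1 hu) hu0 z₀
  have hreg : ∀ R : G → G → Prop,
      (Ext (fun u v => u ∈ L ∧ v ∈ L ∧ R (ev f u) (ev f v))).IsRegular →
      (Ext (fun u v => u ∈ (T M t N).accepts ∧ v ∈ (T M t N).accepts ∧
        R (ev (fB f t N) u) (ev (fB f t N) v))).IsRegular := by
    intro R hR
    have h1 := transfer (M := M) (t := t) (N := N) (p₀ := z₀) (by rw [← ht₀']; exact (hN _).le) hR
    refine isReg_congr h1 (fun p => ?_)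
    rw [mem_Ext, mem_Ext]
    constructor
    · rintro ⟨u, v, ⟨a, b, c⟩, d⟩
      refine ⟨u, v, ⟨a, b, hsub _ (hmem u a), hsub _ (hmem v b), ?_⟩, d⟩
      rw [← hval u a, ← hval v b]; exact c
    · rintro ⟨u, v, ⟨a, b, -, -, c⟩, d⟩
      refine ⟨u, v, ⟨a, b, ?_⟩, d⟩
      rw [hval u a, hval v b]; exact c
  refine ⟨Bl A σ N, inferInstance, fB f t N, (T M t N).accepts,
    ⟨_, inferInstance, T M t N, rfl⟩, ?_, hreg, ?_, ?_⟩
  · intro g
    obtain ⟨z, hz, rfl⟩ := hsurj g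
    obtain ⟨u, hu, hd⟩ := dec_surj' hN (fun q w hw => ht q w hw) M.start z hz
    refine ⟨u, hu, ?_⟩
    rw [hval u hu, ← ht₀', hd]
  · intro u v huv
    exact acc_prefix huv
  · intro u hu v hv he
    rw [hval u hu, hval v hv] at he
    have := huniq _ (hmem u hu) _ (hmem v hv) he
    rw [← ht₀'] at this
    exact dec_inj hN hu hv this

theorem ev_inl {B C : Type} (g : B → G) (c : C → G) (w : List B) :
    ev (Sum.elim g c) (w.map Sum.inl) = ev g w := by
  simp [ev, Function.comp_def]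

/-- the same with prescribed additional letters -/
theorem main₁ [Finite A] (f : A → G) (L : Language A) (h : IsAut f L) {C : Type} [Finite C]
    (c : C → G) :
    ∃ (B : Type) (_ : Finite B) (g : B → G) (L' : Language B), L'.IsRegular ∧
      (∀ x : G, ∃ w ∈ L', ev g w = x) ∧
      (∀ R : G → G → Prop,
        (Ext (fun u v => u ∈ L ∧ v ∈ L ∧ R (ev f u) (ev f v))).IsRegular →
        (Ext (fun u v => u ∈ L' ∧ v ∈ L' ∧ R (ev g u) (ev g v))).IsRegular) ∧
      (∀ u v : List B, u ++ v ∈ L' → u ∈ L') ∧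
      (∀ u ∈ L', ∀ v ∈ L', ev g u = ev g v → u = v) ∧ ∀ x : C, ∃ b : B, g b = c x := by
  obtain ⟨B, hB, g, L', h1, h2, h3, h4, h5⟩ := main₀ f L h
  refine ⟨B ⊕ C, inferInstance, Sum.elim g c, {p | ∃ q ∈ L', q.map Sum.inl = p},
    image h1 Sum.inl, ?_, ?_, ?_, ?_, fun x => ⟨Sum.inr x, rfl⟩⟩
  · intro x
    obtain ⟨w, hw, rfl⟩ := h2 x
    exact ⟨w.map Sum.inl, ⟨w, hw, rfl⟩, ev_inl g c w⟩
  · intro R hR
    refine isReg_congr (ext_map (Sum.inl : B → B ⊕ C) (h3 R hR)) fun p => ?_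
    rw [mem_Ext, mem_Ext]
    constructor
    · rintro ⟨_, _, ⟨⟨u, hu, rfl⟩, ⟨v, hv, rfl⟩, hr⟩, d⟩
      rw [ev_inl, ev_inl] at hr
      exact ⟨_, _, ⟨u, v, rfl, rfl, hu, hv, hr⟩, d⟩
    · rintro ⟨_, _, ⟨u, v, rfl, rfl, hu, hv, hr⟩, d⟩
      refine ⟨_, _, ⟨⟨u, hu, rfl⟩, ⟨v, hv, rfl⟩, ?_⟩, d⟩
      rw [ev_inl, ev_inl]; exact hr
  · rintro u v ⟨q, hq, he⟩
    have h6 := List.map_eq_append_iff.1 he
    obtain ⟨q₁, q₂, rfl, e1, -⟩ := h6
    exact ⟨q₁, h4 q₁ q₂ hq, e1⟩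
  · rintro _ ⟨u, hu, rfl⟩ _ ⟨v, hv, rfl⟩ he
    rw [ev_inl, ev_inl] at he
    rw [h5 u hu v hv he]

end Pool.Agent.KS6_79.AU
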